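import Mathlib
import Pool.Agent.Work.MP_d3656f_al.O.Ord
import Pool.Agent.Work.MP_d3656f_al.E.Faith

/-!
# B/GapEx : a nontrivial automorphism with three fixed points has a gap and a third fixed point

Let `p1, p2, p3` be the fixed points and (by `faith`) `x0 ∈ Bd` with `bd Φ x0 ≠ x0`. Work in the
coordinate `X = cX p1`, let `h` be the increasing homeomorphism of `ℝ` given by `coordH`
(`Φ ∈ fixG`), `F = {t | h t = t}`, closed, it contains `X p2 ≠ X p3`; `t0 = X x0 ∉ F`.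
Let `a` be the point with coordinate `sSup (F ∩ Iio t0)` if this set is nonempty, otherwise
`a = p1`; let `b` be the point with coordinate `sInf (F ∩ Ioi t0)` if this set is nonempty,
otherwise `b = p1`. (`F` closed: the supremum and the infimum are in `F`, and are `≠ t0`.) As `F` is
nonempty not both are `p1`, and `a ≠ b`. There are three different fixed points
`p1, p2, p3`, so one of them is a fixed point `c ∉ {a, b}`. Gap: let `x ∈ Bd` with
`0 < det3 a x b`. If `a, b ≠ p1`: `x = p1` is impossible (`det3 a p1 b = det3 p1 b a > 0` would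
give `X b < X a`), so by `det3_cX3` `(X x - X a) (X b - X x) (X b - X a) > 0`, so
`X a < X x < X b`; there is no point of `F` strictly between `X a` and `X b` (it would be `< t0` or
`> t0`). If `a = p1`: `X x < X b`; there is no point of `F` below `t0`, etc. If `b = p1`:
`0 < det3 a x p1 = det3 p1 a x` gives `X a < X x`.
-/

set_option autoImplicit false

namespace Pool.Agent.Work.MP_d3656f_al

private theorem left_end (F : Set ℝ) (hF : IsClosed F) (t0 : ℝ) (h0 : t0 ∉ F) :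
    (∃ s ∈ F, s < t0 ∧ ∀ t, s < t → t ≤ t0 → t ∉ F) ∨ ∀ t, t ≤ t0 → t ∉ F := by
  by_cases hne : (F ∩ Set.Iic t0).Nonempty
  · left
    have hcl : IsClosed (F ∩ Set.Iic t0) := hF.inter isClosed_Iic
    have hbd : BddAbove (F ∩ Set.Iic t0) := ⟨t0, fun x hx => hx.2⟩
    have hm := hcl.csSup_mem hne hbd
    refine ⟨sSup (F ∩ Set.Iic t0), hm.1, lt_of_le_of_ne hm.2 ?_, ?_⟩
    · intro h
      rw [h] at hm
      exact h0 hm.1
    · intro t h1 h2 h3
      exact absurd (le_csSup hbd ⟨h3, h2⟩) (not_le.mpr h1)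
  · right
    intro t h1 h2
    exact hne ⟨t, h2, h1⟩

private theorem right_end (F : Set ℝ) (hF : IsClosed F) (t0 : ℝ) (h0 : t0 ∉ F) :
    (∃ s ∈ F, t0 < s ∧ ∀ t, t0 ≤ t → t < s → t ∉ F) ∨ ∀ t, t0 ≤ t → t ∉ F := by
  by_cases hne : (F ∩ Set.Ici t0).Nonempty
  · left
    have hcl : IsClosed (F ∩ Set.Ici t0) := hF.inter isClosed_Ici
    have hbd : BddBelow (F ∩ Set.Ici t0) := ⟨t0, fun x hx => hx.2⟩
    have hm := hcl.csInf_mem hne hbd
    refine ⟨sInf (F ∩ Set.Ici t0), hm.1, lt_of_le_of_ne hm.2 ?_, ?_⟩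
    · intro h
      rw [← h] at hm
      exact h0 hm.1
    · intro t h1 h2 h3
      exact absurd (csInf_le hbd ⟨h3, h1⟩) (not_le.mpr h2)
  · right
    intro t h1 h2
    exact hne ⟨t, h2, h1⟩

namespace Model

variable {G : Type} [Group G] (M : Model G)

theorem gap_ex {Φ : MulAut G} (hop : M.OP Φ) (hne : Φ ≠ 1) (h3 : M.Fix3 Φ) :
    ∃ a ∈ Bd, ∃ b ∈ Bd, ∃ c ∈ Bd, M.Gap Φ a b ∧ c ≠ a ∧ c ≠ b ∧ M.bd Φ c = c := by
  obtain ⟨p1, hp1, p2, hp2, p3, hp3, h12, h23, h13, f1, f2, f3⟩ := h3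
  obtain ⟨x0, hx0, hfx0⟩ : ∃ x0 ∈ Bd, M.bd Φ x0 ≠ x0 := by
    by_contra hno
    push Not at hno
    exact hne (M.faith hno)
  have hx01 : x0 ≠ p1 := by
    intro h
    rw [h] at hfx0
    exact hfx0 f1
  obtain ⟨H, hH⟩ := M.coordH hp1
  obtain ⟨φ, hφ⟩ : ∃ φ : ℝ ≃o ℝ, ∀ x ∈ Bd, x ≠ p1 → cX p1 (M.bd Φ x) = φ (cX p1 x) :=
    ⟨H ⟨Φ, hop, f1⟩, fun x hx hx1 => (hH ⟨Φ, hop, f1⟩ x hx hx1).2⟩
  have hbd1 : ∀ x ∈ Bd, x ≠ p1 → M.bd Φ x ≠ p1 := fun x hx hx1 => (hH ⟨Φ, hop, f1⟩ x hx hx1).1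
  have hfix : ∀ x ∈ Bd, x ≠ p1 → (M.bd Φ x = x ↔ φ (cX p1 x) = cX p1 x) := by
    intro x hx hx1
    constructor
    · intro h
      rw [← hφ x hx hx1, h]
    · intro h
      rw [← hφ x hx hx1] at h
      exact cX_inj hp1 (M.bd_mem Φ hx) hx (hbd1 x hx hx1) hx1 h
  obtain ⟨F, hFd⟩ : ∃ F : Set ℝ, F = {t | φ t = t} := ⟨_, rfl⟩
  have hFmem : ∀ t, t ∈ F ↔ φ t = t := fun t => by rw [hFd]; exact Iff.rfl
  have hFc : IsClosed F := by
    rw [hFd]
    exact isClosed_eq φ.continuous continuous_id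
  have ht0 : cX p1 x0 ∉ F := by
    rw [hFmem, ← hfix x0 hx0 hx01]
    exact hfx0
  have hp2F : cX p1 p2 ∈ F := by
    rw [hFmem, ← hfix p2 hp2 h12.symm]
    exact f2
  -- the left end
  obtain ⟨a, ha, fa, hal⟩ : ∃ a ∈ Bd, M.bd Φ a = a ∧
      ((a ≠ p1 ∧ cX p1 a < cX p1 x0 ∧ ∀ t, cX p1 a < t → t ≤ cX p1 x0 → t ∉ F) ∨
        (a = p1 ∧ ∀ t, t ≤ cX p1 x0 → t ∉ F)) := by
    rcases left_end F hFc _ ht0 with ⟨s, hs, hs1, hs2⟩ | hall
    · refine ⟨nrm (cN p1 s), cN_mem hp1 s, ?_, Or.inl ⟨cN_ne hp1 s, ?_, ?_⟩⟩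
      · rw [hfix _ (cN_mem hp1 s) (cN_ne hp1 s), cX_cN hp1]
        exact (hFmem s).mp hs
      · rw [cX_cN hp1]
        exact hs1
      · rw [cX_cN hp1]
        exact hs2
    · exact ⟨p1, hp1, f1, Or.inr ⟨rfl, hall⟩⟩
  obtain ⟨b, hb, fb, hbl⟩ : ∃ b ∈ Bd, M.bd Φ b = b ∧
      ((b ≠ p1 ∧ cX p1 x0 < cX p1 b ∧ ∀ t, cX p1 x0 ≤ t → t < cX p1 b → t ∉ F) ∨
        (b = p1 ∧ ∀ t, cX p1 x0 ≤ t → t ∉ F)) := by
    rcases right_end F hFc _ ht0 with ⟨s, hs, hs1, hs2⟩ | hall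
    · refine ⟨nrm (cN p1 s), cN_mem hp1 s, ?_, Or.inl ⟨cN_ne hp1 s, ?_, ?_⟩⟩
      · rw [hfix _ (cN_mem hp1 s) (cN_ne hp1 s), cX_cN hp1]
        exact (hFmem s).mp hs
      · rw [cX_cN hp1]
        exact hs1
      · rw [cX_cN hp1]
        exact hs2
    · exact ⟨p1, hp1, f1, Or.inr ⟨rfl, hall⟩⟩
  have hab : a ≠ b := by
    intro hab
    rcases hal with ⟨a1, a2, a3⟩ | ⟨a1, a2⟩
    · rcases hbl with ⟨b1, b2, b3⟩ | ⟨b1, b2⟩
      · rw [hab] at a2
        linarith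
      · exact a1 (hab.trans b1)
    · rcases hbl with ⟨b1, b2, b3⟩ | ⟨b1, b2⟩
      · exact b1 (hab.symm.trans a1)
      · rcases le_total (cX p1 p2) (cX p1 x0) with h | h
        · exact a2 _ h hp2F
        · exact b2 _ h hp2F
  obtain ⟨c, hc, hca, hcb, fc⟩ : ∃ c ∈ Bd, c ≠ a ∧ c ≠ b ∧ M.bd Φ c = c := by
    by_contra hno
    push Not at hno
    have k1 : p1 = a ∨ p1 = b := by
      by_contra h
      rw [not_or] at h
      exact hno p1 hp1 h.1 h.2 f1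
    have k2 : p2 = a ∨ p2 = b := by
      by_contra h
      rw [not_or] at h
      exact hno p2 hp2 h.1 h.2 f2
    have k3 : p3 = a ∨ p3 = b := by
      by_contra h
      rw [not_or] at h
      exact hno p3 hp3 h.1 h.2 f3
    rcases k1 with k1 | k1 <;> rcases k2 with k2 | k2 <;> rcases k3 with k3 | k3
    · exact h12 (k1.trans k2.symm)
    · exact h12 (k1.trans k2.symm)
    · exact h13 (k1.trans k3.symm)
    · exact h23 (k2.trans k3.symm)
    · exact h23 (k2.trans k3.symm)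
    · exact h13 (k1.trans k3.symm)
    · exact h12 (k1.trans k2.symm)
    · exact h12 (k1.trans k2.symm)
  refine ⟨a, ha, b, hb, c, hc, ⟨ha, hb, hab, fa, fb, ?_⟩, hca, hcb, fc⟩
  intro x hx hdet hfx
  obtain ⟨hax, hxb, -⟩ := ne_of_det3 hdet.ne'
  have hxF : x ≠ p1 → cX p1 x ∈ F := fun h => by
    rw [hFmem, ← hfix x hx h]
    exact hfx
  rcases hal with ⟨a1, a2, a3⟩ | ⟨a1, a2⟩
  · rcases hbl with ⟨b1, b2, b3⟩ | ⟨b1, b2⟩
    · by_cases hxp : x = p1
      · rw [hxp, ← det3_rot, det3_pos_iff hp1 hb ha b1 a1] at hdet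
        linarith
      · rw [det3_cX3 hp1 ha hx hb a1 hxp b1] at hdet
        have q1 := Q_bd_pos hp1 ha (Ne.symm a1)
        have q2 := Q_bd_pos hp1 hx (Ne.symm hxp)
        have q3 := Q_bd_pos hp1 hb (Ne.symm b1)
        have e1 : 0 < Q p1 a * Q p1 x * Q p1 b / 2 * (cX p1 b - cX p1 a) := by
          have : 0 < cX p1 b - cX p1 a := by linarith
          positivity
        have e2 : 0 < (Q p1 a * Q p1 x * Q p1 b / 2 * (cX p1 b - cX p1 a)) *
            ((cX p1 x - cX p1 a) * (cX p1 b - cX p1 x)) := by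
          have e3 : (Q p1 a * Q p1 x * Q p1 b / 2 * (cX p1 b - cX p1 a)) *
            ((cX p1 x - cX p1 a) * (cX p1 b - cX p1 x)) = Q p1 a * Q p1 x * Q p1 b *
            ((cX p1 x - cX p1 a) * (cX p1 b - cX p1 x) * (cX p1 b - cX p1 a)) / 2 := by ring
          rw [e3]
          exact hdet
        have e4 : 0 < (cX p1 x - cX p1 a) * (cX p1 b - cX p1 x) :=
          (mul_pos_iff_of_pos_left e1).mp e2
        rcases mul_pos_iff.mp e4 with ⟨g1, g2⟩ | ⟨g1, g2⟩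
        · rcases le_total (cX p1 x) (cX p1 x0) with h | h
          · exact a3 _ (by linarith) h (hxF hxp)
          · exact b3 _ h (by linarith) (hxF hxp)
        · linarith
    · have hxp : x ≠ p1 := by rw [← b1]; exact hxb
      rw [b1, det3_rot, det3_pos_iff hp1 ha hx a1 hxp] at hdet
      rcases le_total (cX p1 x) (cX p1 x0) with h | h
      · exact a3 _ hdet h (hxF hxp)
      · exact b2 _ h (hxF hxp)
  · have hxp : x ≠ p1 := by rw [← a1]; exact hax.symm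
    rcases hbl with ⟨b1, b2, b3⟩ | ⟨b1, b2⟩
    · rw [a1, det3_pos_iff hp1 hx hb hxp b1] at hdet
      rcases le_total (cX p1 x) (cX p1 x0) with h | h
      · exact a2 _ h (hxF hxp)
      · exact b3 _ h hdet (hxF hxp)
    · exact hab (a1.trans b1.symm)

end Model

end Pool.Agent.Work.MP_d3656f_al
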