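import Mathlib
import Pool.Agent.Work.MP_d3656f_al.E.Cont

/-!
# B/Cen : central points of triples

* `cen_ex`: for different `n1 n2 n3 ∈ Bd` let `c1^2 = Q n2 n3 / (6 Q n1 n2 Q n1 n3)` etc., so
  `c_i c_j Q n_i n_j = 1/6`; `z = c1 n1 + c2 n2 + c3 n3` is in `Hyp`, `Q z n1 = 1 / (3 c1)`, and
  `Q z n1 Q z n2 = (2/3) Q n1 n2`. Take `v` with `Q z (pt v) ≤ R` (`cocpt'`);
  `Q (pt v) n ≤ 4 R Q z n`.
* `cen_unique`: let `v, v' ∈ Hyp` both be `C`-central for `a b c`. Put `r_a = Q v' a / Q v a` etc.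
  By `ptolemy v v' a b`: `√(Q v v' Q a b) ≤ √(Q v a Q v' b) + √(Q v b Q v' a)
  = √(Q v a Q v b) (√r_b + √r_a) ≤ √(C Q a b) (√r_a + √r_b)`, and with the roles of `v, v'`
  exchanged `≤ √(C Q a b) (√(1/r_a) + √(1/r_b))`. Among three positive numbers `r_a, r_b, r_c`
  two are `≤ 1` or two are `≥ 1`; use that pair: `Q v v' ≤ 4 C`.
* `cen_base`: `Q base a = 1` for `a ∈ Bd`.
* `cen_act` from `Bt_act_bd2`; `cen_bd` from `bt_bb`.
-/

set_option autoImplicit false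

namespace Pool.Agent.Work.MP_d3656f_al

private theorem pair_le {C : ℝ} {v v' a b : V} (hv : v ∈ Hyp) (hv' : v' ∈ Hyp) (ha : a ∈ Bd)
    (hb : b ∈ Bd) (hab : a ≠ b) (h : Bt C a v b) (h1 : Q v' a ≤ Q v a) (h2 : Q v' b ≤ Q v b) :
    Q v v' ≤ 4 * C := by
  have hp := ptolemy (hyp_cone hv) (hyp_cone hv') (bd_cone ha) (bd_cone hb)
  have hva := Q_pos_hyp hv (bd_cone ha)
  have hvb := Q_pos_hyp hv (bd_cone hb)
  have hv'a := Q_pos_hyp hv' (bd_cone ha)
  have hv'b := Q_pos_hyp hv' (bd_cone hb)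
  have hq := Q_bd_pos ha hb hab
  unfold Bt at h
  rw [Q_symm a v] at h
  have hC : 0 < C := by
    by_contra hn
    have : C * Q a b ≤ 0 := mul_nonpos_of_nonpos_of_nonneg (not_lt.1 hn) hq.le
    have : 0 < Q v a * Q v b := by positivity
    linarith
  have e1 : Q v a * Q v' b ≤ C * Q a b :=
    (mul_le_mul_of_nonneg_left h2 hva.le).trans h
  have e2 : Q v b * Q v' a ≤ C * Q a b := by
    refine (mul_le_mul_of_nonneg_left h1 hvb.le).trans ?_
    rw [mul_comm]; exact h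
  have s1 := Real.sqrt_le_sqrt e1
  have s2 := Real.sqrt_le_sqrt e2
  have h5 : Real.sqrt (Q v v' * Q a b) ≤ 2 * Real.sqrt (C * Q a b) := by linarith
  rw [Real.sqrt_le_left (by positivity)] at h5
  have e := Real.mul_self_sqrt (show 0 ≤ C * Q a b by positivity)
  have h6 : Q v v' * Q a b ≤ (4 * C) * Q a b := by nlinarith
  exact le_of_mul_le_mul_right h6 hq

private theorem pair_ge {C : ℝ} {v v' a b : V} (hv : v ∈ Hyp) (hv' : v' ∈ Hyp) (ha : a ∈ Bd)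
    (hb : b ∈ Bd) (hab : a ≠ b) (h : Bt C a v' b) (h1 : Q v a ≤ Q v' a) (h2 : Q v b ≤ Q v' b) :
    Q v v' ≤ 4 * C := by
  rw [Q_symm]
  exact pair_le hv' hv ha hb hab h h1 h2

theorem cen_unique {C : ℝ} {v v' a b c : V} (hv : v ∈ Hyp) (hv' : v' ∈ Hyp) (ha : a ∈ Bd)
    (hb : b ∈ Bd) (hc : c ∈ Bd) (h1 : a ≠ b) (h2 : b ≠ c) (h3 : a ≠ c) (h : Cen C v a b c)
    (h' : Cen C v' a b c) : Q v v' ≤ 4 * C := by
  obtain ⟨hab, hbc, hac⟩ := h
  obtain ⟨hab', hbc', hac'⟩ := h'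
  rcases le_total (Q v' a) (Q v a) with ea | ea <;>
  rcases le_total (Q v' b) (Q v b) with eb | eb <;>
  rcases le_total (Q v' c) (Q v c) with ec | ec
  · exact pair_le hv hv' ha hb h1 hab ea eb
  · exact pair_le hv hv' ha hb h1 hab ea eb
  · exact pair_le hv hv' ha hc h3 hac ea ec
  · exact pair_ge hv hv' hb hc h2 hbc' eb ec
  · exact pair_le hv hv' hb hc h2 hbc eb ec
  · exact pair_ge hv hv' ha hc h3 hac' ea ec
  · exact pair_ge hv hv' ha hb h1 hab' ea eb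
  · exact pair_ge hv hv' ha hb h1 hab' ea eb

theorem cen_base {C : ℝ} {a b c : V} (ha : a ∈ Bd) (hb : b ∈ Bd) (h : Cen C base a b c) :
    1 ≤ C * Q a b := by
  have h1 := h.1
  unfold Bt at h1
  rw [Q_base_right, Q_base_left, ha.2, hb.2] at h1
  linarith

/-- The exact centre of an ideal triangle. -/
private theorem centre {a b c : V} (ha : a ∈ Bd) (hb : b ∈ Bd) (hc : c ∈ Bd) (h1 : a ≠ b)
    (h2 : b ≠ c) (h3 : a ≠ c) : ∃ z ∈ Hyp, Q z a * Q z b ≤ Q a b ∧ Q z b * Q z c ≤ Q b c ∧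
      Q z a * Q z c ≤ Q a c := by
  have hx := Q_bd_pos ha hb h1
  have hy := Q_bd_pos hb hc h2
  have hw := Q_bd_pos ha hc h3
  set x := Q a b with hxd
  set y := Q b c with hyd
  set w := Q a c with hwd
  have haa : Q a a = 0 := ha.1
  have hbb : Q b b = 0 := hb.1
  have hcc : Q c c = 0 := hc.1
  -- weights
  set X := Real.sqrt (6 * x * y * w) with hX
  have hX0 : 0 < X := Real.sqrt_pos.2 (by positivity)
  have hXX : X ^ 2 = 6 * x * y * w := Real.sq_sqrt (by positivity)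
  refine ⟨(y / X) • a + (w / X) • b + (x / X) • c, ⟨?_, ?_⟩, ?_, ?_, ?_⟩
  · simp only [Q_add_left, Q_add_right, Q_smul_left, Q_smul_right, Q_symm b a, Q_symm c a,
      Q_symm c b, haa, hbb, hcc, ← hxd, ← hyd, ← hwd]
    field_simp
    linear_combination (-1 : ℝ) * hXX
  · have a2 := ha.2
    have b2 := hb.2
    have c2 := hc.2
    simp only [Pi.add_apply, Pi.smul_apply, smul_eq_mul, a2, b2, c2]
    positivity
  · simp only [Q_add_left, Q_smul_left, Q_symm b a, Q_symm c a,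
      Q_symm c b, haa, hbb, ← hxd, ← hyd, ← hwd]
    have e : (y / X * 0 + w / X * x + x / X * w) * (y / X * x + w / X * 0 + x / X * y)
        = 4 * x * (x * y * w) / X ^ 2 := by field_simp; ring
    rw [e, hXX, div_le_iff₀ (by positivity)]
    nlinarith [mul_pos (mul_pos hx hy) hw, mul_pos hx (mul_pos (mul_pos hx hy) hw)]
  · simp only [Q_add_left, Q_smul_left, Q_symm b a, Q_symm c a,
      Q_symm c b, hcc, hbb, ← hxd, ← hyd, ← hwd]
    have e : (y / X * x + w / X * 0 + x / X * y) * (y / X * w + w / X * y + x / X * 0)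
        = 4 * y * (x * y * w) / X ^ 2 := by field_simp; ring
    rw [e, hXX, div_le_iff₀ (by positivity)]
    nlinarith [mul_pos (mul_pos hx hy) hw, mul_pos hy (mul_pos (mul_pos hx hy) hw)]
  · simp only [Q_add_left, Q_smul_left, Q_symm b a, Q_symm c a,
      Q_symm c b, haa, hcc, ← hxd, ← hyd, ← hwd]
    have e : (y / X * 0 + w / X * x + x / X * w) * (y / X * w + w / X * y + x / X * 0)
        = 4 * w * (x * y * w) / X ^ 2 := by field_simp; ring
    rw [e, hXX, div_le_iff₀ (by positivity)]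
    nlinarith [mul_pos (mul_pos hx hy) hw, mul_pos hw (mul_pos (mul_pos hx hy) hw)]

namespace Model

variable {G : Type} [Group G] (M : Model G)

theorem cen_ex : ∃ C : ℝ, ∀ a ∈ Bd, ∀ b ∈ Bd, ∀ c ∈ Bd, a ≠ b → b ≠ c → a ≠ c →
    ∃ v : G, Cen C (M.pt v) a b c := by
  obtain ⟨R, hR1, hR⟩ := M.cocpt'
  refine ⟨16 * R ^ 2, fun a ha b hb c hc h1 h2 h3 => ?_⟩
  obtain ⟨z, hz, e1, e2, e3⟩ := centre ha hb hc h1 h2 h3
  obtain ⟨v, hv⟩ := hR z hz
  have key : ∀ x ∈ Bd, ∀ y ∈ Bd, Q z x * Q z y ≤ Q x y → Bt (16 * R ^ 2) x (M.pt v) y := by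
    intro x hx y hy h
    have hzx := Q_pos_hyp hz (bd_cone hx)
    have hzy := Q_pos_hyp hz (bd_cone hy)
    have a1 : Q (M.pt v) x ≤ 4 * (R * Q z x) := by
      refine (Q_tri (M.pt_cone v) hz (bd_cone hx)).trans ?_
      rw [Q_symm (M.pt v) z]
      exact mul_le_mul_of_nonneg_left (mul_le_mul_of_nonneg_right hv hzx.le) (by norm_num)
    have a2 : Q (M.pt v) y ≤ 4 * (R * Q z y) := by
      refine (Q_tri (M.pt_cone v) hz (bd_cone hy)).trans ?_
      rw [Q_symm (M.pt v) z]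
      exact mul_le_mul_of_nonneg_left (mul_le_mul_of_nonneg_right hv hzy.le) (by norm_num)
    unfold Bt
    rw [Q_symm x]
    calc Q (M.pt v) x * Q (M.pt v) y ≤ (4 * (R * Q z x)) * (4 * (R * Q z y)) :=
          mul_le_mul a1 a2 (Q_pos_hyp (M.pt_hyp v) (bd_cone hy)).le (by positivity)
      _ = 16 * R ^ 2 * (Q z x * Q z y) := by ring
      _ ≤ _ := mul_le_mul_of_nonneg_left h (by positivity)
  exact ⟨v, key a ha b hb e1, key b hb c hc e2, key a ha c hc e3⟩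

theorem cen_act {C : ℝ} (g v : G) {a b c : V} (ha : a ∈ Bd) (hb : b ∈ Bd) (hc : c ∈ Bd) :
    Cen C (M.pt (g * v)) (M.bact g a) (M.bact g b) (M.bact g c) ↔ Cen C (M.pt v) a b c := by
  unfold Cen
  rw [M.Bt_act_bd2 g v ha hb, M.Bt_act_bd2 g v hb hc, M.Bt_act_bd2 g v ha hc]

theorem cen_bd (Φ : MulAut G) (C : ℝ) : ∃ C' : ℝ, ∀ v : G, ∀ a ∈ Bd, ∀ b ∈ Bd, ∀ c ∈ Bd,
    Cen C (M.pt v) a b c →
    Cen C' (M.pt (Φ v)) (M.bd Φ a) (M.bd Φ b) (M.bd Φ c) := by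
  obtain ⟨C', hC'⟩ := M.bt_bb Φ C
  exact ⟨C', fun v a ha b hb c hc h => ⟨hC' v a ha b hb h.1, hC' v b hb c hc h.2.1,
    hC' v a ha c hc h.2.2⟩⟩

end Model

end Pool.Agent.Work.MP_d3656f_al
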