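import Mathlib
import Pool.Agent.Work.MP_d3656f_al.B.Cen
import Pool.Agent.Work.MP_d3656f_al.O.Ord

/-!
# B/FinX : finitely many lifts with a gap of a triple of fixed points central at the base point

`finX`. Write `Ψ = conj γ * Φ`, so `bd Ψ x = bact γ (bd Φ x)`.
1. Finitely many `γ`. If `Cen C base a b c` with `a, b, c` different fixed points of `bd Ψ` then
   `bd Φ a = bact γ⁻¹ a` etc., and `cen_bd` (with `v = 1`, `Φ 1 = 1`) gives
   `Cen C' base (bact γ⁻¹ a) (bact γ⁻¹ b) (bact γ⁻¹ c)`, i.e. (`cen_act` with `g = γ`)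
   `Cen C' (pt γ) a b c`. With `C ≤ C'` (WLOG) `cen_unique` gives `q 1 γ ≤ 4 C'`: finitely many
   `γ` by `ball_finite`.
2. For fixed `Ψ` finitely many pairs `(a, b)` with `Gap Ψ a b` and `Q a b ≥ ε`, where `ε = 1/C`
   by `cen_base`. Claim: if `(a, b)`, `(a', b')` are gaps of `Ψ` with `Q a b ≥ ε`, `Q a' b' ≥ ε`,
   `Q a a' < ε/16`, `Q b b' < ε/16` then `a = a'` and `b = b'`. This gives finiteness, because
   `Bd` is compact: cover `Bd` by finitely many sets on which `Q x y < ε/16` for any two points.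
   Proof of the claim. Suppose `a' ≠ a`; coordinates `X = cX a`. `b ≠ a`, and `b' ≠ a` as
   `√(Q a b) ≤ √(Q a b') + √(Q b b')` (`√Q` is a multiple of the euclidean distance on `Bd`) gives
   `√(Q a b') > (3/4) √ε`. As `a'` is a fixed point and `(a, b)` a gap, not `0 < det3 a a' b`, so
   `X a' ≥ X b` (`det3_pos_iff`). As `(a', b')` is a gap and `a` is fixed, not
   `0 < det3 a' a b' = det3 a b' a'`, so `X a' ≤ X b'`. Now `Q a x = 2 / (1 + (X x)^2)`: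
   `Q a b ≥ ε` gives `(X b)^2 ≤ 2/ε`, `Q a a' < ε/16` gives `(X a')^2 > 32/ε - 1 ≥ 2/ε` (as
   `ε ≤ 2`), so with `X a' ≥ X b` we get `X a' > 0`, and `X b' ≥ X a' > 0`, so
   `Q a b' ≤ Q a a' < ε/16`, a contradiction. So `a' = a`. Then `b' ` fixed and `(a, b)` a gap
   gives `X b ≤ X b'`, by symmetry `X b' ≤ X b`, so `b = b'` (`cX_inj`).
-/

set_option autoImplicit false

namespace Pool.Agent.Work.MP_d3656f_al

namespace Model

variable {G : Type} [Group G] (M : Model G)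

private theorem gap_le {Ψ : MulAut G} {a b x : V} (h : M.Gap Ψ a b) (hx : x ∈ Bd) (hxa : x ≠ a)
    (hfx : M.bd Ψ x = x) : cX a b ≤ cX a x := by
  obtain ⟨ha, hb, hab, _, _, hg⟩ := h
  by_contra hcon
  push Not at hcon
  exact hg x hx ((det3_pos_iff ha hx hb hxa hab.symm).mpr hcon) hfx

private theorem gap_ge {Ψ : MulAut G} {a a' b' : V} (h : M.Gap Ψ a' b') (ha : a ∈ Bd) (ha' : a' ≠ a)
    (hb' : b' ≠ a) (hfa : M.bd Ψ a = a) : cX a a' ≤ cX a b' := by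
  obtain ⟨ha1, hb1, hab, _, _, hg⟩ := h
  by_contra hcon
  push Not at hcon
  refine hg a ha ?_ hfa
  rw [det3_swap, ← det3_swap']
  exact (det3_pos_iff ha hb1 ha1 hb' ha').mpr hcon

private theorem Q_par {a b c : V} (ha : a ∈ Bd) (hb : b ∈ Bd) (hc : c ∈ Bd) :
    Q a b ≤ 2 * Q a c + 2 * Q b c := by
  rw [Q_bd ha hb, Q_bd ha hc, Q_bd hb hc]
  nlinarith [sq_nonneg (a 0 - c 0 + (b 0 - c 0)), sq_nonneg (a 1 - c 1 + (b 1 - c 1))]

private theorem gap_fst {Ψ : MulAut G} {a b a' b' : V} {ε : ℝ} (hε : 0 < ε) (h : M.Gap Ψ a b) (h' : M.Gap Ψ a' b')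
    (h1 : ε ≤ Q a b) (h3 : Q a a' < ε / 16) (h4 : Q b b' < ε / 16) : a' = a := by
  by_contra hne
  have hb'a : b' ≠ a := by
    rintro rfl
    have := Q_symm b b'
    rw [this] at h4
    linarith
  have hab := h.2.2.1
  have e1 := M.gap_le h h'.1 hne h'.2.2.2.1
  have e2 := M.gap_ge h' h.1 hne hb'a h.2.2.2.1
  have q1 := Q_a_cX h.1 h.2.1 hab.symm
  have q2 := Q_a_cX h.1 h'.1 hne
  have q3 := Q_a_cX h.1 h'.2.1 hb'a
  have h7 := Q_par h.1 h.2.1 h'.2.1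
  rw [q2] at h3
  rw [q1] at h1 h7
  rw [q3] at h7
  rw [le_div_iff₀ (by positivity)] at h1
  rw [div_lt_iff₀ (by positivity)] at h3
  have h8 : (cX a b) ^ 2 < (cX a a') ^ 2 := by nlinarith
  have h9 : 0 < cX a a' := by
    by_contra hcon
    push Not at hcon
    nlinarith
  have h10 : (cX a a') ^ 2 ≤ (cX a b') ^ 2 := by nlinarith
  have h11 : 2 / (1 + cX a b' ^ 2) ≤ ε / 16 := by
    rw [div_le_iff₀ (by positivity)]
    nlinarith
  have h12 : ε ≤ 2 / (1 + cX a b ^ 2) := by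
    rw [le_div_iff₀ (by positivity)]
    exact h1
  linarith

private theorem gap_eq {Ψ : MulAut G} {a b a' b' : V} {ε : ℝ} (hε : 0 < ε) (h : M.Gap Ψ a b) (h' : M.Gap Ψ a' b')
    (h1 : ε ≤ Q a b) (h3 : Q a a' < ε / 16) (h4 : Q b b' < ε / 16) : a' = a ∧ b' = b := by
  have e1 := M.gap_fst hε h h' h1 h3 h4
  subst e1
  refine ⟨rfl, ?_⟩
  have e2 := M.gap_le h h'.2.1 h'.2.2.1.symm h'.2.2.2.2.1
  have e3 := M.gap_le h' h.2.1 h.2.2.1.symm h.2.2.2.2.1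
  exact cX_inj h.1 h'.2.1 h.2.1 h'.2.2.1.symm h.2.2.1.symm (le_antisymm e3 e2)

private theorem gap_fin (Ψ : MulAut G) {ε : ℝ} (hε : 0 < ε) :
    {p : V × V | M.Gap Ψ p.1 p.2 ∧ ε ≤ Q p.1 p.2}.Finite := by
  have hcomp : IsCompact (Bd ×ˢ Bd : Set (V × V)) := bd_compact.prod bd_compact
  have he : 0 < Real.sqrt ε / 16 := by positivity
  obtain ⟨t, _, htf, hcov⟩ := hcomp.finite_cover_balls he
  have hex : ∀ p : V × V, p ∈ {p : V × V | M.Gap Ψ p.1 p.2 ∧ ε ≤ Q p.1 p.2} → ∃ c ∈ t, dist p c < Real.sqrt ε / 16 := by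
    intro p hp
    have h1 : p ∈ (Bd ×ˢ Bd : Set (V × V)) := ⟨hp.1.1, hp.1.2.1⟩
    have h2 := hcov h1
    rw [Set.mem_iUnion₂] at h2
    obtain ⟨c, hc, hpc⟩ := h2
    exact ⟨c, hc, hpc⟩
  classical
  set f : V × V → V × V := fun p => if hp : p ∈ {p : V × V | M.Gap Ψ p.1 p.2 ∧ ε ≤ Q p.1 p.2} then (hex p hp).choose else p
    with hf
  have hfs : ∀ p (hp : p ∈ {p : V × V | M.Gap Ψ p.1 p.2 ∧ ε ≤ Q p.1 p.2}), f p ∈ t ∧ dist p (f p) < Real.sqrt ε / 16 := by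
    intro p hp
    simp only [hf, dif_pos hp]
    exact (hex p hp).choose_spec
  refine Set.Finite.of_injOn (f := f) (t := t) (fun p hp => (hfs p hp).1) ?_ htf
  intro p hp p' hp' hpp
  have d1 := (hfs p hp).2
  have d2 := (hfs p' hp').2
  rw [← hpp] at d2
  have d3 : dist p p' < Real.sqrt ε / 8 := by
    have := dist_triangle_right p p' (f p)
    linarith
  have hq : ∀ x ∈ Bd, ∀ y ∈ Bd, dist x y < Real.sqrt ε / 8 → Q x y < ε / 16 := by
    intro x hx y hy hxy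
    rw [Q_bd hx hy]
    have a0 : |x 0 - y 0| < Real.sqrt ε / 8 := by
      have := dist_le_pi_dist x y 0
      rw [Real.dist_eq] at this
      linarith
    have a1 : |x 1 - y 1| < Real.sqrt ε / 8 := by
      have := dist_le_pi_dist x y 1
      rw [Real.dist_eq] at this
      linarith
    have b0 : (x 0 - y 0) ^ 2 < (Real.sqrt ε / 8) ^ 2 := sq_lt_sq' (by linarith [neg_abs_le (x 0 - y 0)]) (by linarith [le_abs_self (x 0 - y 0)])
    have b1 : (x 1 - y 1) ^ 2 < (Real.sqrt ε / 8) ^ 2 := sq_lt_sq' (by linarith [neg_abs_le (x 1 - y 1)]) (by linarith [le_abs_self (x 1 - y 1)])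
    rw [div_pow, Real.sq_sqrt hε.le] at b0 b1
    linarith
  have g1 : dist p.1 p'.1 < Real.sqrt ε / 8 := lt_of_le_of_lt (le_max_left _ _) (by rw [← Prod.dist_eq]; exact d3)
  have g2 : dist p.2 p'.2 < Real.sqrt ε / 8 := lt_of_le_of_lt (le_max_right _ _) (by rw [← Prod.dist_eq]; exact d3)
  obtain ⟨e1, e2⟩ := M.gap_eq hε hp.1 hp'.1 hp.2 (hq _ hp.1.1 _ hp'.1.1 g1) (hq _ hp.1.2.1 _ hp'.1.2.1 g2)
  exact Prod.ext e1.symm e2.symm

private theorem cen_mono {C C' : ℝ} (h : C ≤ C') {v a b c : V} (ha : a ∈ Bd) (hb : b ∈ Bd) (hc : c ∈ Bd)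
    (hv : Cen C v a b c) : Cen C' v a b c := by
  have q1 := Q_nonneg (bd_cone ha) (bd_cone hb)
  have q2 := Q_nonneg (bd_cone hb) (bd_cone hc)
  have q3 := Q_nonneg (bd_cone ha) (bd_cone hc)
  refine ⟨hv.1.trans ?_, hv.2.1.trans ?_, hv.2.2.trans ?_⟩
  · exact mul_le_mul_of_nonneg_right h q1
  · exact mul_le_mul_of_nonneg_right h q2
  · exact mul_le_mul_of_nonneg_right h q3

theorem finX (Φ : MulAut G) (C : ℝ) : {p : G × V × V |
    M.Gap (MulAut.conj p.1 * Φ) p.2.1 p.2.2 ∧ ∃ c ∈ Bd, c ≠ p.2.1 ∧ c ≠ p.2.2 ∧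
      M.bd (MulAut.conj p.1 * Φ) c = c ∧ Cen C base p.2.1 p.2.2 c}.Finite := by
  obtain ⟨C', hC'⟩ := M.cen_bd Φ C
  have hfin := M.ball_finite 1 (4 * max C C')
  have hbig : ((⋃ γ ∈ {g : G | M.q 1 g ≤ 4 * max C C'},
      (fun p : V × V => ((γ, p) : G × V × V)) '' {p : V × V | M.Gap (MulAut.conj γ * Φ) p.1 p.2 ∧ 1 / max C 1 ≤ Q p.1 p.2}) :
      Set (G × V × V)).Finite := by
    refine hfin.biUnion fun γ _ => ?_
    exact (M.gap_fin (MulAut.conj γ * Φ) (by positivity)).image _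
  refine hbig.subset ?_
  rintro ⟨γ, a, b⟩ ⟨hgap, c, hc, hca, hcb, hfc, hcen⟩
  simp only at hgap hca hcb hfc hcen
  have ha := hgap.1
  have hb := hgap.2.1
  have hfx : ∀ x ∈ Bd, M.bd (MulAut.conj γ * Φ) x = x → M.bact γ (M.bd Φ x) = x := by
    intro x hx h
    rw [M.bd_mul _ _ hx, M.bd_conj _ (M.bd_mem Φ hx)] at h
    exact h
  have h1 := hC' 1 a ha b hb c hc (by rw [M.pt_one]; exact hcen)
  rw [map_one] at h1
  have h2 := (M.cen_act γ 1 (M.bd_mem Φ ha) (M.bd_mem Φ hb) (M.bd_mem Φ hc)).mpr h1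
  rw [mul_one, hfx a ha hgap.2.2.2.1, hfx b hb hgap.2.2.2.2.1, hfx c hc hfc] at h2
  have h3 := cen_mono (le_max_left C C') ha hb hc hcen
  have h4 := cen_mono (le_max_right C C') ha hb hc h2
  have h5 := cen_unique base_hyp (M.pt_hyp γ) ha hb hc hgap.2.2.1 hcb.symm hca.symm h3 h4
  have h6 := cen_base ha hb hcen
  rw [Set.mem_iUnion₂]
  refine ⟨γ, ?_, (a, b), ⟨hgap, ?_⟩, rfl⟩
  · change Q (M.pt 1) (M.pt γ) ≤ _
    rw [M.pt_one]
    exact h5
  · have q1 := Q_nonneg (bd_cone ha) (bd_cone hb)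
    have hm : (0 : ℝ) < max C 1 := lt_max_of_lt_right one_pos
    change 1 / max C 1 ≤ Q a b
    rw [div_le_iff₀ hm, mul_comm]
    exact h6.trans (mul_le_mul_of_nonneg_right (le_max_left _ _) q1)

end Model

end Pool.Agent.Work.MP_d3656f_al
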