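import Mathlib
import Pool.Agent.Work.MP_d3656f_al.O.Ord

/-!
# B/Grp : the stabiliser of a gap in the centraliser of `Φ` (definition only, FIXED)
-/

set_option autoImplicit false

namespace Pool.Agent.Work.MP_d3656f_al

namespace Model

variable {G : Type} [Group G] (M : Model G)

/-- Orientation preserving automorphisms which commute with `Φ` and fix `a` and `b`. -/
def Lsub (Φ : MulAut G) {a b : V} (ha : a ∈ Bd) (hb : b ∈ Bd) : Subgroup (MulAut G) :=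
  M.fixG ha ⊓ M.fixG hb ⊓ Subgroup.centralizer {Φ}

theorem mem_Lsub (Φ : MulAut G) {a b : V} (ha : a ∈ Bd) (hb : b ∈ Bd) (Ψ : MulAut G) :
    Ψ ∈ M.Lsub Φ ha hb ↔ M.OP Ψ ∧ M.bd Ψ a = a ∧ M.bd Ψ b = b ∧ Φ * Ψ = Ψ * Φ := by
  unfold Lsub
  rw [Subgroup.mem_inf, Subgroup.mem_inf, Subgroup.mem_centralizer_iff]
  constructor
  · rintro ⟨⟨h1, h2⟩, h3⟩
    exact ⟨h1.1, h1.2, h2.2, h3 Φ rfl⟩
  · rintro ⟨h1, h2, h3, h4⟩
    refine ⟨⟨⟨h1, h2⟩, ⟨h1, h3⟩⟩, ?_⟩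
    intro x hx
    rw [Set.mem_singleton_iff] at hx
    subst hx
    exact h4

end Model

end Pool.Agent.Work.MP_d3656f_al
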