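import Mathlib
import Pool.Agent.Work.MP_d3656f_al.B.FinX
import Pool.Agent.Work.MP_d3656f_al.B.Grp

/-!
# B/Idx : finitely many double cosets

`idx`. Let `C` be from `cen_ex`, `X` the finite set of `finX Φ C`. Call `Ψ` good if it is `OP`,
`Ψ * Φ * Ψ⁻¹ = conj γ * Φ` for some `γ` and `(γ, bd Ψ a, bd Ψ b) ∈ X`. For each `x ∈ X` for which
there is a good `Ψ` with this triple `x` choose one, `r x`; the finite set `S` consists of these.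
(1) Two good `Ψ, r` with the same triple satisfy `r⁻¹ * Ψ ∈ Lsub Φ ha hb` (clear, use `bd_mul`,
`bd_inv_bd`). (2) Let `Ψ` be `OP` with `Ψ * Φ * Ψ⁻¹ = conj γ * Φ =: Φ'`. Then
`Gap Φ' (bd Ψ a) (bd Ψ b)` (if `0 < det3 (bd Ψ a) x (bd Ψ b)` then `x = bd Ψ y` with
`0 < det3 a y b` by `OP_iff`, `bd_surj`; `bd Φ' x = bd Ψ (bd Φ y) ≠ bd Ψ y = x`), and `bd Ψ c` is a
third fixed point. Let `v` be central for `bd Ψ a, bd Ψ b, bd Ψ c`. Then `Ψ1 = conj v⁻¹ * Ψ` is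
good: `Ψ1 * Φ * Ψ1⁻¹ = conj v⁻¹ * conj γ * Φ * conj v = conj (v⁻¹ * γ * Φ v) * Φ`,
`bd Ψ1 = bact v⁻¹ ∘ bd Ψ`, the gap property and the third fixed point as before (now for `Ψ1`), and
`Cen C base (bd Ψ1 a) (bd Ψ1 b) (bd Ψ1 c)` by `cen_act`. So `Ψ = conj v * r * (r⁻¹ * Ψ1)`.
-/

set_option autoImplicit false

namespace Pool.Agent.Work.MP_d3656f_al

namespace Model

variable {G : Type} [Group G] (M : Model G)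

private theorem bd_conj_rel {Φ Φ' Ψ : MulAut G} (h : Ψ * Φ * Ψ⁻¹ = Φ') {y : V} (hy : y ∈ Bd) :
    M.bd Φ' (M.bd Ψ y) = M.bd Ψ (M.bd Φ y) := by
  have h1 : Φ' * Ψ = Ψ * Φ := by
    rw [← h]
    group
  rw [← M.bd_mul Φ' Ψ hy, h1, M.bd_mul Ψ Φ hy]

private theorem gap_rel {Φ Φ' Ψ : MulAut G} (hop : M.OP Ψ) (h : Ψ * Φ * Ψ⁻¹ = Φ') {a b : V}
    (hgap : M.Gap Φ a b) : M.Gap Φ' (M.bd Ψ a) (M.bd Ψ b) := by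
  obtain ⟨ha, hb, hab, fa, fb, hx⟩ := hgap
  refine ⟨M.bd_mem Ψ ha, M.bd_mem Ψ hb, fun he => hab (M.bd_inj Ψ ha hb he), ?_, ?_, ?_⟩
  · rw [M.bd_conj_rel h ha, fa]
  · rw [M.bd_conj_rel h hb, fb]
  · intro x hxB hdet hfx
    obtain ⟨y, hy, rfl⟩ := M.bd_surj Ψ hxB
    rw [M.OP_iff hop ha hy hb] at hdet
    rw [M.bd_conj_rel h hy] at hfx
    exact hx y hy hdet (M.bd_inj Ψ (M.bd_mem Φ hy) hy hfx)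

theorem idx (Φ : MulAut G) {a b c : V} (ha : a ∈ Bd) (hb : b ∈ Bd) (hc : c ∈ Bd)
    (hgap : M.Gap Φ a b) (hca : c ≠ a) (hcb : c ≠ b) (hfc : M.bd Φ c = c) :
    ∃ S : Set (MulAut G), S.Finite ∧ ∀ Ψ : MulAut G, M.OP Ψ →
      (∃ γ : G, Ψ * Φ * Ψ⁻¹ = MulAut.conj γ * Φ) →
      ∃ r ∈ S, ∃ γ : G, ∃ ℓ ∈ M.Lsub Φ ha hb, Ψ = MulAut.conj γ * r * ℓ := by
  obtain ⟨C, hC⟩ := M.cen_ex
  have hX := M.finX Φ C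
  have hsel : ∀ x : G × V × V, ∃ r : MulAut G,
      (∃ Ψ : MulAut G, M.OP Ψ ∧ Ψ * Φ * Ψ⁻¹ = MulAut.conj x.1 * Φ ∧ M.bd Ψ a = x.2.1 ∧
        M.bd Ψ b = x.2.2) →
      (M.OP r ∧ r * Φ * r⁻¹ = MulAut.conj x.1 * Φ ∧ M.bd r a = x.2.1 ∧ M.bd r b = x.2.2) := by
    intro x
    by_cases h : ∃ Ψ : MulAut G, M.OP Ψ ∧ Ψ * Φ * Ψ⁻¹ = MulAut.conj x.1 * Φ ∧ M.bd Ψ a = x.2.1 ∧
        M.bd Ψ b = x.2.2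
    · obtain ⟨Ψ, hΨ⟩ := h
      exact ⟨Ψ, fun _ => hΨ⟩
    · exact ⟨1, fun h' => absurd h' h⟩
  choose r hr using hsel
  refine ⟨r '' _, hX.image r, ?_⟩
  rintro Ψ hop ⟨γ, hγ⟩
  have hab : a ≠ b := hgap.2.2.1
  obtain ⟨v, hv⟩ := hC (M.bd Ψ a) (M.bd_mem Ψ ha) (M.bd Ψ b) (M.bd_mem Ψ hb) (M.bd Ψ c)
    (M.bd_mem Ψ hc) (fun he => hab (M.bd_inj Ψ ha hb he))
    (fun he => hcb (M.bd_inj Ψ hb hc he).symm) (fun he => hca (M.bd_inj Ψ ha hc he).symm)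
  obtain ⟨Ψ1, hΨ1⟩ : ∃ Ψ1 : MulAut G, Ψ1 = MulAut.conj v⁻¹ * Ψ := ⟨_, rfl⟩
  have hop1 : M.OP Ψ1 := by
    rw [hΨ1]
    exact M.OP_mul (M.OP_conj _) hop
  have hbd1 : ∀ y ∈ Bd, M.bd Ψ1 y = M.bact v⁻¹ (M.bd Ψ y) := by
    intro y hy
    rw [hΨ1, M.bd_mul _ _ hy, M.bd_conj _ (M.bd_mem Ψ hy)]
  have hc1 : Φ * MulAut.conj v = MulAut.conj (Φ v) * Φ := by
    ext y
    show Φ (v * y * v⁻¹) = Φ v * Φ y * (Φ v)⁻¹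
    rw [map_mul, map_mul, map_inv]
  have hrel : Ψ1 * Φ * Ψ1⁻¹ = MulAut.conj (v⁻¹ * γ * Φ v) * Φ := by
    have e1 : Ψ1 * Φ * Ψ1⁻¹ = MulAut.conj v⁻¹ * (Ψ * Φ * Ψ⁻¹) * MulAut.conj v := by
      rw [hΨ1, map_inv]
      group
    rw [e1, hγ, map_mul, map_mul]
    calc MulAut.conj v⁻¹ * (MulAut.conj γ * Φ) * MulAut.conj v
        = MulAut.conj v⁻¹ * MulAut.conj γ * (Φ * MulAut.conj v) := by group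
      _ = MulAut.conj v⁻¹ * MulAut.conj γ * (MulAut.conj (Φ v) * Φ) := by rw [hc1]
      _ = MulAut.conj v⁻¹ * MulAut.conj γ * MulAut.conj (Φ v) * Φ := by group
  have hgap1 := M.gap_rel hop1 hrel hgap
  have hcen : Cen C base (M.bd Ψ1 a) (M.bd Ψ1 b) (M.bd Ψ1 c) := by
    have h1 := (M.cen_act (C := C) v⁻¹ v (M.bd_mem Ψ ha) (M.bd_mem Ψ hb) (M.bd_mem Ψ hc)).mpr hv
    rw [inv_mul_cancel, M.pt_one] at h1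
    rw [hbd1 a ha, hbd1 b hb, hbd1 c hc]
    exact h1
  have hmem : ((v⁻¹ * γ * Φ v, M.bd Ψ1 a, M.bd Ψ1 b) : G × V × V) ∈ {p : G × V × V |
      M.Gap (MulAut.conj p.1 * Φ) p.2.1 p.2.2 ∧ ∃ c ∈ Bd, c ≠ p.2.1 ∧ c ≠ p.2.2 ∧
      M.bd (MulAut.conj p.1 * Φ) c = c ∧ Cen C base p.2.1 p.2.2 c} := by
    refine ⟨hgap1, M.bd Ψ1 c, M.bd_mem Ψ1 hc, fun he => hca (M.bd_inj Ψ1 hc ha he),
      fun he => hcb (M.bd_inj Ψ1 hc hb he), ?_, hcen⟩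
    show M.bd (MulAut.conj (v⁻¹ * γ * Φ v) * Φ) (M.bd Ψ1 c) = M.bd Ψ1 c
    rw [M.bd_conj_rel hrel hc, hfc]
  obtain ⟨r1, r2, r3, r4⟩ := hr (v⁻¹ * γ * Φ v, M.bd Ψ1 a, M.bd Ψ1 b) ⟨Ψ1, hop1, hrel, rfl, rfl⟩
  refine ⟨_, Set.mem_image_of_mem r hmem, v, (r (v⁻¹ * γ * Φ v, M.bd Ψ1 a, M.bd Ψ1 b))⁻¹ * Ψ1,
    ?_, ?_⟩
  · generalize r (v⁻¹ * γ * Φ v, M.bd Ψ1 a, M.bd Ψ1 b) = ρ at r1 r2 r3 r4
    have r2' : ρ * Φ * ρ⁻¹ = Ψ1 * Φ * Ψ1⁻¹ := by rw [r2, hrel]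
    have r3' : M.bd ρ a = M.bd Ψ1 a := r3
    have r4' : M.bd ρ b = M.bd Ψ1 b := r4
    rw [M.mem_Lsub]
    refine ⟨M.OP_mul (M.OP_inv r1) hop1, ?_, ?_, ?_⟩
    · rw [M.bd_mul _ _ ha, ← r3', M.bd_inv_bd ρ ha]
    · rw [M.bd_mul _ _ hb, ← r4', M.bd_inv_bd ρ hb]
    · calc Φ * (ρ⁻¹ * Ψ1) = ρ⁻¹ * (ρ * Φ * ρ⁻¹) * Ψ1 := by group
        _ = ρ⁻¹ * (Ψ1 * Φ * Ψ1⁻¹) * Ψ1 := by rw [r2']
        _ = ρ⁻¹ * Ψ1 * Φ := by group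
  · rw [hΨ1, map_inv]
    group

end Model

end Pool.Agent.Work.MP_d3656f_al
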