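import Mathlib
import Pool.Agent.Work.MP_d3656f_al.M.Act

/-!
# B/Cyc : the stabiliser of two boundary points is cyclic

Let `S` be a subgroup of `G` fixing `a ≠ b` in `Bd`. For `γ ∈ S` let `act γ a = λ γ • a`,
`λ γ > 0`; then `act γ b = (λ γ)⁻¹ • b` because `Q (act γ a) (act γ b) = Q a b > 0`.
`f = log λ : S → ℝ` is a homomorphism to the additive group. Let
`m = (a + b)/√(2 Q a b) ∈ Hyp`. Then `Q m (act γ m) = (λ + λ⁻¹)/2`, and
`Q base (pt γ) ≤ 16 (Q base m)^2 Q m (act γ m)` (`Q_tri` twice, and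
`Q (act γ m) (act γ base) = Q m base`). Hence for every `K` only finitely many `γ ∈ S` have
`|f γ| ≤ K` (`proper`). In particular the kernel of `f` is finite, so trivial (`tf`: an element
of a finite subgroup has finite order), and `0` is isolated in the image, which is cyclic
(`AddSubgroup.cyclic_of_isolated_zero` or the like, applied to the image as an additive subgroup
of `ℝ`). Choose `d ∈ S` mapping to a generator.
-/

set_option autoImplicit false

namespace Pool.Agent.Work.MP_d3656f_al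

namespace Model

variable {G : Type} [Group G] (M : Model G)

theorem cyc {a b : V} (ha : a ∈ Bd) (hb : b ∈ Bd) (hab : a ≠ b) (S : Subgroup G)
    (hS : ∀ γ ∈ S, M.bact γ a = a ∧ M.bact γ b = b) :
    ∃ d ∈ S, ∀ γ ∈ S, ∃ n : ℤ, γ = d ^ n := by
  have hQab : 0 < Q a b := Q_bd_pos ha hb hab
  -- the factor
  have hlam : ∀ γ ∈ S, 0 < (M.act γ a) 2 ∧ M.act γ a = (M.act γ a) 2 • a ∧
      M.act γ b = ((M.act γ a) 2)⁻¹ • b := by
    intro γ hγ
    obtain ⟨t, ht, et⟩ := M.act_eq_bact γ ha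
    obtain ⟨u, hu, eu⟩ := M.act_eq_bact γ hb
    rw [(hS γ hγ).1] at et
    rw [(hS γ hγ).2] at eu
    have h1 : (M.act γ a) 2 = t := by
      rw [et, Pi.smul_apply, smul_eq_mul, ha.2, mul_one]
    have h2 : t * u = 1 := by
      have h := M.act_Q γ a b
      rw [et, eu, Q_smul_left, Q_smul_right] at h
      have h3 : (t * u) * Q a b = 1 * Q a b := by linarith
      exact mul_right_cancel₀ hQab.ne' h3
    rw [h1]
    refine ⟨ht, et, ?_⟩
    rw [eu, eq_inv_of_mul_eq_one_right h2]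
  obtain ⟨F, hF⟩ : ∃ F : S →* ℝ, ∀ γ : S, F γ = (M.act (γ : G) a) 2 := by
    refine ⟨{ toFun := fun γ => (M.act (γ : G) a) 2, map_one' := ?_, map_mul' := ?_ }, fun _ => rfl⟩
    · rw [Subgroup.coe_one, M.act_one, ha.2]
    · intro γ δ
      have h1 : M.act (γ : G) (M.act (δ : G) a) = (M.act (δ : G) a) 2 • M.act (γ : G) a := by
        rw [← M.act_smul, ← (hlam _ δ.2).2.1]
      rw [Subgroup.coe_mul, M.act_mul, h1, Pi.smul_apply, smul_eq_mul, mul_comm]
  have hFpos : ∀ γ : S, 0 < F γ := by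
    intro γ
    rw [hF]
    exact (hlam _ γ.2).1
  -- the middle point
  obtain ⟨r, hr⟩ : ∃ r, r = √(2 * Q a b) := ⟨_, rfl⟩
  have hr0 : 0 < r := by
    rw [hr]
    exact Real.sqrt_pos.2 (by positivity)
  have hrr : r * r = 2 * Q a b := by
    rw [hr]
    exact Real.mul_self_sqrt (by positivity)
  obtain ⟨m, hm⟩ : ∃ m, m = r⁻¹ • (a + b) := ⟨_, rfl⟩
  have hmh : m ∈ Hyp := by
    constructor
    · rw [hm, Q_smul_left, Q_smul_right, Q_add_left, Q_add_right, Q_add_right, ha.1, hb.1,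
        Q_symm b a]
      have e : r⁻¹ * (r⁻¹ * (0 + Q a b + (Q a b + 0))) = (r * r)⁻¹ * (2 * Q a b) := by
        rw [mul_inv]
        ring
      rw [e, hrr]
      exact inv_mul_cancel₀ (by positivity)
    · rw [hm, Pi.smul_apply, Pi.add_apply, ha.2, hb.2, smul_eq_mul]
      positivity
  have hQm : ∀ γ : S, Q m (M.act (γ : G) m) = (F γ + (F γ)⁻¹) / 2 := by
    intro γ
    have h1 := hlam _ γ.2
    rw [← hF γ] at h1
    have h2 : M.act (γ : G) m = r⁻¹ • (F γ • a + (F γ)⁻¹ • b) := by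
      rw [hm, M.act_smul, M.act_add, ← h1.2.1, ← h1.2.2]
    rw [h2, hm, Q_smul_left, Q_smul_right, Q_add_left, Q_add_right, Q_add_right, Q_smul_right,
      Q_smul_right, Q_smul_right, Q_smul_right, ha.1, hb.1, Q_symm b a]
    have e : r⁻¹ * (r⁻¹ * (F γ * 0 + (F γ)⁻¹ * Q a b + (F γ * Q a b + (F γ)⁻¹ * 0))) =
        ((r * r)⁻¹ * (2 * Q a b)) * ((F γ + (F γ)⁻¹) / 2) := by
      rw [mul_inv]
      ring
    rw [e, hrr, inv_mul_cancel₀ (by positivity), one_mul]
  have hfin : ∀ K : ℝ, {γ : S | |Real.log (F γ)| ≤ K}.Finite := by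
    intro K
    have h1 := (M.ball_finite 1 (16 * (Q base m) ^ 2 * Real.exp K)).preimage
      (f := fun γ : S => (γ : G)) (Subtype.val_injective.injOn)
    refine h1.subset ?_
    intro γ hγ
    have h2 : |Real.log (F γ)| ≤ K := hγ
    rw [abs_le] at h2
    have h3 : F γ ≤ Real.exp K := by
      rw [← Real.exp_log (hFpos γ)]
      exact Real.exp_le_exp.2 h2.2
    have h4 : (F γ)⁻¹ ≤ Real.exp K := by
      rw [← Real.exp_log (inv_pos.2 (hFpos γ)), Real.log_inv]
      exact Real.exp_le_exp.2 (by linarith)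
    show M.q 1 (γ : G) ≤ 16 * (Q base m) ^ 2 * Real.exp K
    unfold Model.q
    rw [M.pt_one]
    have h5 : Q base (M.pt (γ : G)) ≤ 4 * (Q base m * Q m (M.pt (γ : G))) :=
      Q_tri (hyp_cone base_hyp) hmh (M.pt_cone _)
    have h6 : Q m (M.pt (γ : G)) ≤ 4 * (Q m (M.act (γ : G) m) * Q (M.act (γ : G) m) (M.pt (γ : G))) :=
      Q_tri (hyp_cone hmh) (M.act_hyp _ hmh) (M.pt_cone _)
    have h7 : Q (M.act (γ : G) m) (M.pt (γ : G)) = Q base m := by
      unfold Model.pt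
      rw [M.act_Q, Q_symm]
    rw [h7, hQm] at h6
    have h8 : 0 < Q base m := Q_pos_hyp base_hyp (hyp_cone hmh)
    have h9 : (F γ + (F γ)⁻¹) / 2 ≤ Real.exp K := by linarith
    calc Q base (M.pt (γ : G)) ≤ 4 * (Q base m * Q m (M.pt (γ : G))) := h5
      _ ≤ 4 * (Q base m * (4 * ((F γ + (F γ)⁻¹) / 2 * Q base m))) := by
          have := mul_le_mul_of_nonneg_left h6 h8.le
          linarith
      _ = 16 * (Q base m) ^ 2 * ((F γ + (F γ)⁻¹) / 2) := by ring
      _ ≤ 16 * (Q base m) ^ 2 * Real.exp K := mul_le_mul_of_nonneg_left h9 (by positivity)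
  -- the kernel
  have hker : ∀ γ : S, F γ = 1 → γ = 1 := by
    intro γ hγ
    by_contra hne
    have hne' : (γ : G) ≠ 1 := fun h => hne (Subtype.ext h)
    have hinj : Function.Injective fun n : ℕ => γ ^ n := by
      intro i j hij
      have hij' : (γ : G) ^ i = (γ : G) ^ j := by
        have h := congrArg (fun x : S => (x : G)) hij
        simpa using h
      rcases lt_trichotomy i j with h1 | h1 | h1
      · exfalso
        apply M.tf _ hne' (j - i) (by omega)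
        have h2 : (γ : G) ^ j = (γ : G) ^ i * (γ : G) ^ (j - i) := by
          rw [← pow_add]
          congr 1
          omega
        rw [h2] at hij'
        exact mul_left_cancel (by rw [mul_one]; exact hij'.symm)
      · exact h1
      · exfalso
        apply M.tf _ hne' (i - j) (by omega)
        have h2 : (γ : G) ^ i = (γ : G) ^ j * (γ : G) ^ (i - j) := by
          rw [← pow_add]
          congr 1
          omega
        rw [h2] at hij'
        exact mul_left_cancel (by rw [mul_one]; exact hij')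
    refine Set.infinite_of_injective_forall_mem hinj (fun n => ?_) (hfin 0)
    show |Real.log (F (γ ^ n))| ≤ 0
    rw [map_pow, hγ, one_pow, Real.log_one, abs_zero]
  -- the image
  obtain ⟨H, hH⟩ : ∃ H : AddSubgroup ℝ, ∀ x, x ∈ H ↔ ∃ γ : S, Real.log (F γ) = x := by
    refine ⟨
      { carrier := {x | ∃ γ : S, Real.log (F γ) = x}
        add_mem' := ?_
        zero_mem' := ⟨1, by rw [map_one, Real.log_one]⟩
        neg_mem' := ?_ }, fun x => Iff.rfl⟩
    · rintro x y ⟨γ, rfl⟩ ⟨δ, rfl⟩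
      exact ⟨γ * δ, by rw [map_mul, Real.log_mul (hFpos γ).ne' (hFpos δ).ne']⟩
    · rintro x ⟨γ, rfl⟩
      refine ⟨γ⁻¹, ?_⟩
      have h1 : F γ * F γ⁻¹ = 1 := by rw [← map_mul, mul_inv_cancel, map_one]
      rw [eq_inv_of_mul_eq_one_right h1, Real.log_inv]
  have hVfin : {x : ℝ | x ∈ H ∧ 0 < x ∧ x ≤ 1}.Finite := by
    refine ((hfin 1).image fun γ : S => Real.log (F γ)).subset ?_
    rintro x ⟨h1, h2, h3⟩
    obtain ⟨γ, rfl⟩ := (hH x).1 h1
    refine ⟨γ, ?_, rfl⟩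
    show |Real.log (F γ)| ≤ 1
    rw [abs_of_pos h2]
    exact h3
  obtain ⟨ε, hε0, hε⟩ : ∃ ε : ℝ, 0 < ε ∧ Disjoint (H : Set ℝ) (Set.Ioo 0 ε) := by
    rcases Set.eq_empty_or_nonempty {x : ℝ | x ∈ H ∧ 0 < x ∧ x ≤ 1} with hV | hV
    · refine ⟨1, one_pos, Set.disjoint_left.2 ?_⟩
      intro x hx hx2
      have h1 : x ∈ {x : ℝ | x ∈ H ∧ 0 < x ∧ x ≤ 1} := ⟨hx, hx2.1, hx2.2.le⟩
      rw [hV] at h1
      exact h1
    · obtain ⟨ε, hε, hmin⟩ := Set.exists_min_image _ (fun x : ℝ => x) hVfin hV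
      refine ⟨ε, hε.2.1, Set.disjoint_left.2 ?_⟩
      intro x hx hx2
      exact absurd (hmin x ⟨hx, hx2.1, hx2.2.le.trans hε.2.2⟩) (not_le.2 hx2.2)
  obtain ⟨β, hβ⟩ := AddSubgroup.cyclic_of_isolated_zero hε0 hε
  have hβH : β ∈ H := by
    rw [hβ]
    exact AddSubgroup.subset_closure rfl
  obtain ⟨d, hd⟩ := (hH β).1 hβH
  refine ⟨d, d.2, ?_⟩
  intro γ hγ
  have h1 : Real.log (F ⟨γ, hγ⟩) ∈ H := (hH _).2 ⟨_, rfl⟩
  rw [hβ, AddSubgroup.mem_closure_singleton] at h1
  obtain ⟨n, hn⟩ := h1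
  refine ⟨n, ?_⟩
  have h2 : F (⟨γ, hγ⟩ * (d ^ n)⁻¹) = 1 := by
    have h3 : F (d ^ n) = F ⟨γ, hγ⟩ := by
      apply Real.log_injOn_pos (hFpos _) (hFpos _)
      rw [map_zpow, Real.log_zpow, hd, ← hn, zsmul_eq_mul]
    have h4 : F (d ^ n) * F (d ^ n)⁻¹ = 1 := by rw [← map_mul, mul_inv_cancel, map_one]
    rw [map_mul, ← h3, h4]
  have h3 := hker _ h2
  rw [mul_inv_eq_one] at h3
  have h4 := congrArg (fun x : S => (x : G)) h3
  simpa using h4

end Model

end Pool.Agent.Work.MP_d3656f_al
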