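import Mathlib
import Pool.Agent.Work.MP_d3656f_al.B.Grp
import Pool.Agent.Work.MP_d3656f_al.B.Cyc
import Pool.Agent.Work.MP_d3656f_al.T.Tr

/-!
# B/Quas : a quasimorphism on the stabiliser of a gap

`L = Lsub Φ ha hb`. Coordinate `X = cX a` on `Bd \ {a}`, `β = X b`; `coordH` restricted to `L` gives
`h : L →* (ℝ ≃o ℝ)` fixing `β`, so it preserves `I = Iio β` and `I' = Ioi β`. The gap is
`{x | X x < β}` (`det3_pos_iff`), so `h Φ` has no fixed point in `I`; `X c ∈ I'` (`c` is a fixed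
point, not in the gap, not `b`). `Φ ∈ L` (it is `OP`) is central in `L`.
Let `S = {γ : G | conj γ ∈ L}`, a subgroup (`comap`) with `bact γ a = a`, `bact γ b = b`
(`bd_conj`). By `cyc` it is generated by one element `d0`; put `d = conj d0 ∈ L`.
* Case `d0 = 1`. Then the only inner automorphism in `L` is `1`; take `q` from `transl` with
  `I` and the central element `Φ`; `q Φ = 1`.
* Case `d0 ≠ 1`. `bact d0` has no fixed points besides `a, b` (`three_fix`), so `h d` has no fixed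
  points in `I` and `I'`. `d` is central in `L`: for `Ψ ∈ L`, `Ψ * conj d0 * Ψ⁻¹ = conj (Ψ d0)` is in
  `L`, so `Ψ d0 = d0^n` and also `Ψ⁻¹ d0 = d0^m`, `d0 = d0^(m n)`, `d0` has infinite order
  (`tf`), so `n = ± 1`. By `sign_const` `h d` moves all points of `I` in the same direction, and so
  does its conjugate `h (Ψ d Ψ⁻¹)`, in the same direction; `n = -1` would give `h d⁻¹`, the
  opposite direction. So `n = 1`.
  Let `q1`, `q2` be from `transl` for `I`, `I'` and the central element `d`, `q = q1 - q2`. Then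
  `q d = 0`, `q Φ = q1 Φ - 0 ≠ 0` (`Φ` has no fixed point in `I`, and the fixed point `X c` in
  `I'`).
Extend `q` by `0` outside of `L`. The last claim: `conj γ ∈ L` is a power `d^n` of the central
element `d`, `q (d^n) = 0` (`hqm_zpow`), and `q (ℓ * conj γ) = q ℓ + q (conj γ)` by `hqm_comm`.
-/

set_option autoImplicit false

namespace Pool.Agent.Work.MP_d3656f_al

private theorem qu_ext {A : Type} [Group A] (L : Subgroup A) (q : L → ℝ)
    (hD : ∃ D : ℝ, ∀ x y : L, |q (x * y) - q x - q y| ≤ D)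
    (hh : ∀ (x : L) (n : ℕ), q (x ^ n) = n * q x) :
    ∃ qe : A → ℝ, HQM L qe ∧ ∀ x : L, qe x = q x := by
  classical
  obtain ⟨D, hD⟩ := hD
  have key : ∀ x : L, (fun a : A => if h : a ∈ L then q ⟨a, h⟩ else 0) (x : A) = q x := by
    intro x
    have hx : (x : A) ∈ L := x.2
    beta_reduce
    rw [dif_pos hx]
  refine ⟨fun a => if h : a ∈ L then q ⟨a, h⟩ else 0, ⟨⟨D, ?_⟩, ?_⟩, key⟩
  · intro x hx y hy
    have h1 := key (⟨x, hx⟩ * ⟨y, hy⟩)
    have h2 := key ⟨x, hx⟩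
    have h3 := key ⟨y, hy⟩
    rw [Subgroup.coe_mul] at h1
    rw [h1, h2, h3]
    exact hD _ _
  · intro x hx n
    have h1 := key (⟨x, hx⟩ ^ n)
    have h2 := key ⟨x, hx⟩
    rw [Subgroup.coe_pow] at h1
    rw [h1, h2]
    exact hh _ _

namespace Model

variable {G : Type} [Group G] (M : Model G)

theorem quas {Φ : MulAut G} (hop : M.OP Φ) {a b c : V} (ha : a ∈ Bd) (hb : b ∈ Bd) (hc : c ∈ Bd)
    (hgap : M.Gap Φ a b) (hca : c ≠ a) (hcb : c ≠ b) (hfc : M.bd Φ c = c) :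
    ∃ q : MulAut G → ℝ, HQM (M.Lsub Φ ha hb) q ∧ q Φ ≠ 0 ∧
      ∀ ℓ ∈ M.Lsub Φ ha hb, ∀ γ : G, MulAut.conj γ ∈ M.Lsub Φ ha hb →
        q (ℓ * MulAut.conj γ) = q ℓ := by
  obtain ⟨-, -, hab, hΦa, hΦb, hg⟩ := hgap
  obtain ⟨h0, hh0⟩ := M.coordH ha
  obtain ⟨L, hL⟩ : ∃ L, L = M.Lsub Φ ha hb := ⟨_, rfl⟩
  rw [← hL]
  have hLm : ∀ Ψ, Ψ ∈ L ↔ M.OP Ψ ∧ M.bd Ψ a = a ∧ M.bd Ψ b = b ∧ Φ * Ψ = Ψ * Φ := by
    intro Ψ
    rw [hL]
    exact M.mem_Lsub Φ ha hb Ψ
  have hLf : L ≤ M.fixG ha := fun Ψ hΨ => ⟨((hLm Ψ).1 hΨ).1, ((hLm Ψ).1 hΨ).2.1⟩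
  obtain ⟨h, hh⟩ : ∃ h : L →* (ℝ ≃o ℝ), ∀ (Ψ : L) (x : V), x ∈ Bd → x ≠ a →
      M.bd (Ψ : MulAut G) x ≠ a ∧ cX a (M.bd (Ψ : MulAut G) x) = h Ψ (cX a x) :=
    ⟨h0.comp (Subgroup.inclusion hLf), fun Ψ x hx hxa => hh0 (Subgroup.inclusion hLf Ψ) x hx hxa⟩
  obtain ⟨β, hβ⟩ : ∃ β, β = cX a b := ⟨_, rfl⟩
  have hhβ : ∀ Ψ : L, h Ψ β = β := by
    intro Ψ
    rw [hβ, ← (hh Ψ b hb hab.symm).2, ((hLm _).1 Ψ.2).2.2.1]
  -- fixed points of `h Ψ` are fixed points of the boundary map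
  have hfix : ∀ (Ψ : L) (t : ℝ), h Ψ t = t → M.bd (Ψ : MulAut G) (nrm (cN a t)) = nrm (cN a t) := by
    intro Ψ t ht
    have h1 := cN_mem ha t
    have h2 := cN_ne ha t
    obtain ⟨h3, h4⟩ := hh Ψ _ h1 h2
    rw [cX_cN ha, ht] at h4
    exact cX_inj ha (M.bd_mem _ h1) h1 h3 h2 (by rw [h4, cX_cN ha])
  have hΦL : Φ ∈ L := (hLm Φ).2 ⟨hop, hΦa, hΦb, rfl⟩
  obtain ⟨φ, hφ⟩ : ∃ φ : L, (φ : MulAut G) = Φ := ⟨⟨Φ, hΦL⟩, rfl⟩
  have hφc : ∀ ℓ : L, φ * ℓ = ℓ * φ := by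
    intro ℓ
    apply Subtype.ext
    rw [Subgroup.coe_mul, Subgroup.coe_mul, hφ]
    exact ((hLm _).1 ℓ.2).2.2.2
  have hφI : ∀ x ∈ Set.Iio β, h φ x ≠ x := by
    intro x hx hfx
    have h1 := hfix φ x hfx
    rw [hφ] at h1
    refine hg _ (cN_mem ha x) ?_ h1
    rw [det3_pos_iff ha (cN_mem ha x) hb (cN_ne ha x) hab.symm, cX_cN ha, ← hβ]
    exact hx
  have hinv : ∀ (ℓ : L) (x : ℝ), x ∈ Set.Iio β → h ℓ x ∈ Set.Iio β := by
    intro ℓ x hx
    have h1 := (h ℓ).lt_iff_lt.2 (show x < β from hx)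
    rw [hhβ] at h1
    exact h1
  have hinv' : ∀ (ℓ : L) (x : ℝ), x ∈ Set.Ioi β → h ℓ x ∈ Set.Ioi β := by
    intro ℓ x hx
    have h1 := (h ℓ).lt_iff_lt.2 (show β < x from hx)
    rw [hhβ] at h1
    exact h1
  -- the fixed point `c`
  have hc1 : h φ (cX a c) = cX a c := by
    rw [← (hh φ c hc hca).2, hφ, hfc]
  have hc2 : cX a c ∈ Set.Ioi β := by
    rcases lt_trichotomy (cX a c) β with h1 | h1 | h1
    · exact absurd hc1 (hφI _ h1)
    · exact absurd (cX_inj ha hc hb hca hab.symm (by rw [h1, hβ])) hcb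
    · exact h1
  -- the inner automorphisms in `L`
  obtain ⟨S, hS⟩ : ∃ S : Subgroup G, ∀ γ, γ ∈ S ↔ MulAut.conj γ ∈ L :=
    ⟨L.comap MulAut.conj, fun γ => Subgroup.mem_comap⟩
  obtain ⟨d0, hd0, hcyc⟩ := M.cyc ha hb hab S (by
    intro γ hγ
    have h1 := (hLm _).1 ((hS γ).1 hγ)
    rw [M.bd_conj γ ha, M.bd_conj γ hb] at h1
    exact ⟨h1.2.1, h1.2.2.1⟩)
  by_cases hd1 : d0 = 1
  · obtain ⟨q, hq1, hq2, hq3, -, -⟩ := transl h (Set.Iio β) Set.ordConnected_Iio isOpen_Iio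
      ⟨β - 1, by rw [Set.mem_Iio]; linarith⟩ hinv φ hφc hφI
    obtain ⟨qe, hqe1, hqe2⟩ := qu_ext L q hq1 hq2
    refine ⟨qe, hqe1, ?_, ?_⟩
    · rw [← hφ, hqe2, hq3]
      exact one_ne_zero
    · intro ℓ _ γ hγ
      obtain ⟨n, hn⟩ := hcyc γ ((hS γ).2 hγ)
      rw [hn, hd1, one_zpow, map_one, mul_one]
  · have hdL : MulAut.conj d0 ∈ L := (hS d0).1 hd0
    obtain ⟨d, hd⟩ : ∃ d : L, (d : MulAut G) = MulAut.conj d0 := ⟨⟨_, hdL⟩, rfl⟩
    -- no fixed points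
    have hdfree : ∀ x : ℝ, x ≠ β → h d x ≠ x := by
      intro x hx hfx
      have h1 := hfix d x hfx
      rw [hd, M.bd_conj d0 (cN_mem ha x)] at h1
      have h2 := (hLm _).1 hdL
      rw [M.bd_conj d0 ha, M.bd_conj d0 hb] at h2
      have h3 : b ≠ nrm (cN a x) := by
        intro h4
        apply hx
        rw [hβ, h4, cX_cN ha]
      exact hd1 (M.three_fix ha hb (cN_mem ha x) hab h3 (cN_ne ha x).symm h2.2.1 h2.2.2.1 h1)
    -- `d` is central
    have hpow1 : ∀ k : ℤ, d0 ^ k = 1 → k = 0 := by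
      intro k hk
      by_contra hk0
      have h1 : 0 < k.natAbs := Int.natAbs_pos.2 hk0
      apply M.tf d0 hd1 k.natAbs h1
      rcases Int.natAbs_eq k with h2 | h2
      · rw [h2, zpow_natCast] at hk
        exact hk
      · rw [h2, zpow_neg, zpow_natCast, inv_eq_one] at hk
        exact hk
    have hconj : ∀ (Ψ : MulAut G) (g : G), Ψ * MulAut.conj g * Ψ⁻¹ = MulAut.conj (Ψ g) := by
      intro Ψ g
      ext x
      simp [MulAut.mul_apply, MulAut.conj_apply, map_mul]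
    have hdc : ∀ ℓ : L, d * ℓ = ℓ * d := by
      intro ℓ
      obtain ⟨n, hn⟩ := hcyc ((ℓ : MulAut G) d0) ((hS _).2 (by
        rw [← hconj]
        exact mul_mem (mul_mem ℓ.2 hdL) (inv_mem ℓ.2)))
      obtain ⟨m, hm⟩ := hcyc ((ℓ : MulAut G)⁻¹ d0) ((hS _).2 (by
        rw [← hconj]
        exact mul_mem (mul_mem (inv_mem ℓ.2) hdL) (inv_mem (inv_mem ℓ.2))))
      have h1 : d0 = d0 ^ (n * m) := by
        have h2 : (ℓ : MulAut G) ((ℓ : MulAut G)⁻¹ d0) = d0 := by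
          rw [← MulAut.mul_apply, mul_inv_cancel, MulAut.one_apply]
        rw [hm, map_zpow, hn, ← zpow_mul] at h2
        exact h2.symm
      have h2 : n * m - 1 = 0 := by
        apply hpow1
        rw [zpow_sub, zpow_one, ← h1, mul_inv_cancel]
      have h3 : n * m = 1 := by omega
      have hdΨ : ℓ * d * ℓ⁻¹ = d ^ n := by
        apply Subtype.ext
        rw [Subgroup.coe_mul, Subgroup.coe_mul, Subgroup.coe_inv, Subgroup.coe_zpow, hd, hconj,
          hn, map_zpow]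
      rcases Int.eq_one_or_neg_one_of_mul_eq_one h3 with h4 | h4
      · rw [h4, zpow_one] at hdΨ
        rw [mul_inv_eq_iff_eq_mul] at hdΨ
        exact hdΨ.symm
      · exfalso
        rw [h4, zpow_neg, zpow_one] at hdΨ
        have h5 : ∀ x, h ℓ (h d (h ℓ⁻¹ x)) = h d⁻¹ x := by
          intro x
          have h6 := congrArg (fun u => h u x) hdΨ
          simp only [map_mul] at h6
          exact h6
        have h6 : ∀ x, h ℓ (h ℓ⁻¹ x) = x := by
          intro x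
          have h7 := congrArg (fun u => h u x) (mul_inv_cancel ℓ)
          simp only [map_mul, map_one] at h7
          exact h7
        have h7 : ∀ x, h d (h d⁻¹ x) = x := by
          intro x
          have h8 := congrArg (fun u => h u x) (mul_inv_cancel d)
          simp only [map_mul, map_one] at h8
          exact h8
        obtain ⟨x, hx⟩ : ∃ x, x ∈ Set.Iio β := ⟨β - 1, by rw [Set.mem_Iio]; linarith⟩
        rcases sign_const (h d) (Set.Iio β) Set.ordConnected_Iio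
          (fun x hx => hdfree x (ne_of_lt hx)) with hs | hs
        · have h8 := (h ℓ).lt_iff_lt.2 (hs _ (hinv ℓ⁻¹ x hx))
          rw [h5, h6] at h8
          have h9 := (h d).lt_iff_lt.2 h8
          rw [h7] at h9
          exact lt_asymm h9 (hs x hx)
        · have h8 := (h ℓ).lt_iff_lt.2 (hs _ (hinv ℓ⁻¹ x hx))
          rw [h5, h6] at h8
          have h9 := (h d).lt_iff_lt.2 h8
          rw [h7] at h9
          exact lt_asymm h9 (hs x hx)
    obtain ⟨q1, ⟨D1, hD1⟩, hq12, hq13, -, hq15⟩ := transl h (Set.Iio β) Set.ordConnected_Iio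
      isOpen_Iio ⟨β - 1, by rw [Set.mem_Iio]; linarith⟩ hinv d hdc
      (fun x hx => hdfree x (ne_of_lt hx))
    obtain ⟨q2, ⟨D2, hD2⟩, hq22, hq23, hq24, -⟩ := transl h (Set.Ioi β) Set.ordConnected_Ioi
      isOpen_Ioi ⟨β + 1, by rw [Set.mem_Ioi]; linarith⟩ hinv' d hdc
      (fun x hx => hdfree x (ne_of_gt hx))
    obtain ⟨qe, hqe1, hqe2⟩ := qu_ext L (fun x => q1 x - q2 x) ⟨D1 + D2, by
      intro x y
      have h1 := hD1 x y
      have h2 := hD2 x y
      rw [abs_le] at *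
      constructor <;> linarith⟩ (by
      intro x n
      rw [hq12, hq22]
      ring)
    have hqd : qe (MulAut.conj d0) = 0 := by
      rw [← hd, hqe2, hq13, hq23, sub_self]
    refine ⟨qe, hqe1, ?_, ?_⟩
    · rw [← hφ, hqe2, hq24 φ ⟨_, hc2, hc1⟩, sub_zero]
      exact hq15 φ hφI
    · intro ℓ hℓ γ hγ
      obtain ⟨n, hn⟩ := hcyc γ ((hS γ).2 hγ)
      have h1 : MulAut.conj γ = (MulAut.conj d0) ^ n := by rw [hn, map_zpow]
      have h2 : ℓ * MulAut.conj γ = MulAut.conj γ * ℓ := by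
        have h3 : Commute (MulAut.conj d0) ℓ := by
          have h4 := congrArg (fun u : L => (u : MulAut G)) (hdc ⟨ℓ, hℓ⟩)
          simp only [Subgroup.coe_mul, hd] at h4
          exact h4
        rw [h1]
        exact (h3.zpow_left n).symm
      rw [hqm_comm hqe1 hℓ hγ h2, h1, hqm_zpow hqe1 hdL, hqd, mul_zero, add_zero]

end Model

end Pool.Agent.Work.MP_d3656f_al
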