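import Mathlib
import Pool.Agent.Work.MP_d3656f_al.B.Idx
import Pool.Agent.Work.MP_d3656f_al.B.GapEx
import Pool.Agent.Work.MP_d3656f_al.B.Quas

/-!
# B/StepB : an outer automorphism with a lift having three fixed points is not quasi null

Facts on `cls`: `cls Φ = cls Ψ ↔ ∃ γ, Ψ = conj γ * Φ` (`Set.range conj` is the underlying set of the
normal subgroup `MulAut.conj.range`, so its normal closure is that subgroup;
`Φ⁻¹ * conj γ * Φ = conj (Φ⁻¹ γ)`).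

`stepB`. Let `a, b, c` be from `gap_ex`, `L = Lsub Φ ha hb`, `C1 = L.map cls`, `f = cls Φ`.
* `C1 ≤ centralizer {f}` and `f ∈ C1` (`Φ ∈ L`).
* Finite index: let `o = cls Ψ` commute with `f`; then `Ψ * Φ * Ψ⁻¹ = conj γ * Φ` for some `γ`.
  If `Ψ` is `OP` then `o ∈ cls r * C1` for some `r ∈ S` by `idx`. If not, all such `o` are in
  `o0 * cls r * C1` where `o0 = cls Ψ0` is one fixed element of the centraliser with `Ψ0` not `OP`
  (so `OR` by `dich`): `Ψ0⁻¹ * Ψ` is `OP` (`OR` composed with `OR`). So the centraliser is covered by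
  finitely many left cosets of `C1`, hence `C1.relIndex (centralizer {f}) ≠ 0`.
* Quasimorphism: `q0` from `quas`. For `ℓ, ℓ' ∈ L` with `cls ℓ = cls ℓ'` we have
  `ℓ' = ℓ * conj γ` with `conj γ ∈ L`, so `q0 ℓ' = q0 ℓ`. Define `q (cls ℓ) = q0 ℓ` (choice of a
  preimage in `L`), `0` outside `C1`. It is `HQM` and `q f = q0 Φ ≠ 0`.
-/

set_option autoImplicit false

namespace Pool.Agent.Work.MP_d3656f_al

private theorem conj_comm' {G : Type} [Group G] (Φ : MulAut G) (g : G) :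
    Φ * MulAut.conj g = MulAut.conj (Φ g) * Φ := by
  ext y
  show Φ (g * y * g⁻¹) = Φ g * Φ y * (Φ g)⁻¹
  rw [map_mul, map_mul, map_inv]

private theorem ncl_eq (G : Type) [Group G] :
    Subgroup.normalClosure (Set.range (MulAut.conj : G →* MulAut G)) =
      (MulAut.conj : G →* MulAut G).range := by
  have hn : ((MulAut.conj : G →* MulAut G).range).Normal := by
    refine ⟨?_⟩
    rintro _ ⟨g, rfl⟩ Φ
    refine ⟨Φ g, ?_⟩
    rw [conj_comm']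
    group
  apply le_antisymm
  · refine Subgroup.normalClosure_le_normal ?_
    rintro _ ⟨g, rfl⟩
    exact ⟨g, rfl⟩
  · rintro _ ⟨g, rfl⟩
    exact Subgroup.subset_normalClosure ⟨g, rfl⟩

private theorem cls_iff_mem {G : Type} [Group G] (Φ Ψ : MulAut G) :
    cls Φ = cls Ψ ↔ ∃ γ : G, MulAut.conj γ = Φ⁻¹ * Ψ := by
  have h1 : cls Φ = cls Ψ ↔
      Φ⁻¹ * Ψ ∈ Subgroup.normalClosure (Set.range (MulAut.conj : G →* MulAut G)) :=
    QuotientGroup.eq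
  rw [h1, ncl_eq]
  exact Iff.rfl

theorem cls_eq_iff {G : Type} [Group G] (Φ Ψ : MulAut G) :
    cls Φ = cls Ψ ↔ ∃ γ : G, Ψ = MulAut.conj γ * Φ := by
  rw [cls_iff_mem]
  constructor
  · rintro ⟨γ, hγ⟩
    refine ⟨Φ γ, ?_⟩
    rw [← conj_comm', hγ]
    group
  · rintro ⟨γ, hγ⟩
    refine ⟨Φ⁻¹ γ, ?_⟩
    have h1 := conj_comm' Φ (Φ⁻¹ γ)
    have h2 : Φ (Φ⁻¹ γ) = γ := Φ.apply_symm_apply γ
    rw [h2] at h1
    rw [hγ, ← h1]
    group

theorem cls_eq_iff' {G : Type} [Group G] (Φ Ψ : MulAut G) :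
    cls Φ = cls Ψ ↔ ∃ γ : G, Ψ = Φ * MulAut.conj γ := by
  rw [cls_iff_mem]
  constructor
  · rintro ⟨γ, hγ⟩
    refine ⟨γ, ?_⟩
    rw [hγ]
    group
  · rintro ⟨γ, hγ⟩
    refine ⟨γ, ?_⟩
    rw [hγ]
    group

theorem cls_surj {G : Type} [Group G] : Function.Surjective (cls (G := G)) :=
  QuotientGroup.mk'_surjective _

private theorem cls_conj {G : Type} [Group G] (γ : G) : cls (MulAut.conj γ) = 1 := by
  have h := (cls_eq_iff (1 : MulAut G) (MulAut.conj γ)).mpr ⟨γ, (mul_one _).symm⟩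
  rw [← h, map_one]

private theorem relIndex_of_cover {A : Type} [Group A] (H K : Subgroup A) (T : Set A)
    (hT : T.Finite) (hHK : H ≤ K) (h : ∀ x ∈ K, ∃ t ∈ T, ∃ y ∈ H, x = t * y) :
    H.relIndex K ≠ 0 := by
  have hfin : Finite (K ⧸ H.subgroupOf K) := by
    have hT' : Finite {t : K | (t : A) ∈ T} :=
      (hT.preimage (Subtype.val_injective.injOn)).to_subtype
    refine Finite.of_surjective
      (fun t : {t : K | (t : A) ∈ T} => (QuotientGroup.mk (t : K) : K ⧸ H.subgroupOf K)) ?_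
    intro q
    obtain ⟨x, rfl⟩ := QuotientGroup.mk_surjective q
    obtain ⟨t, ht, y, hy, hxy⟩ := h x x.2
    have htK : t ∈ K := by
      have h1 : t = (x : A) * y⁻¹ := by rw [hxy]; group
      rw [h1]
      exact K.mul_mem x.2 (K.inv_mem (hHK hy))
    refine ⟨⟨⟨t, htK⟩, ht⟩, ?_⟩
    show (QuotientGroup.mk (⟨t, htK⟩ : K) : K ⧸ H.subgroupOf K) = QuotientGroup.mk x
    rw [QuotientGroup.eq]
    show ((⟨t, htK⟩ : K)⁻¹ * x : K) ∈ H.subgroupOf K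
    rw [Subgroup.mem_subgroupOf]
    have h2 : (((⟨t, htK⟩ : K)⁻¹ * x : K) : A) = y := by
      show t⁻¹ * (x : A) = y
      rw [hxy]
      group
    rw [h2]
    exact hy
  exact Subgroup.index_ne_zero_of_finite

namespace Model

variable {G : Type} [Group G] (M : Model G)

private theorem OR_mul {Φ Ψ : MulAut G} (h : M.OR Φ) (h' : M.OR Ψ) : M.OP (Φ * Ψ) := by
  intro a ha b hb c hc hdet
  rw [M.bd_mul Φ Ψ ha, M.bd_mul Φ Ψ hb, M.bd_mul Φ Ψ hc]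
  have h1 := h' a ha b hb c hc hdet
  have h2 : 0 < det3 (M.bd Ψ b) (M.bd Ψ a) (M.bd Ψ c) := by
    rw [det3_swap]
    linarith
  have h3 := h _ (M.bd_mem Ψ hb) _ (M.bd_mem Ψ ha) _ (M.bd_mem Ψ hc) h2
  rw [det3_swap] at h3
  linarith

private theorem cen_conj {Φ Ψ : MulAut G} (h : cls Ψ ∈ Subgroup.centralizer {cls Φ}) :
    ∃ γ : G, Ψ * Φ * Ψ⁻¹ = MulAut.conj γ * Φ := by
  rw [Subgroup.mem_centralizer_iff] at h
  have h1 := h (cls Φ) rfl
  rw [← cls_eq_iff, map_mul, map_mul, map_inv, ← h1]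
  group

theorem stepB {Φ : MulAut G} (hop : M.OP Φ) (hne : Φ ≠ 1) (h3 : M.Fix3 Φ) :
    ∃ (C1 : Subgroup (OutG G)) (q : OutG G → ℝ), C1 ≤ Subgroup.centralizer {cls Φ} ∧
      C1.relIndex (Subgroup.centralizer {cls Φ}) ≠ 0 ∧ HQM C1 q ∧ cls Φ ∈ C1 ∧
      q (cls Φ) ≠ 0 := by
  classical
  obtain ⟨a, ha, b, hb, c, hc, hgap, hca, hcb, hfc⟩ := M.gap_ex hop hne h3
  obtain ⟨q0, ⟨⟨D, hD⟩, hpow⟩, hq0, hinv⟩ := M.quas hop ha hb hc hgap hca hcb hfc
  obtain ⟨S, hS, hidx⟩ := M.idx Φ ha hb hc hgap hca hcb hfc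
  have hΦL : Φ ∈ M.Lsub Φ ha hb := by
    rw [M.mem_Lsub]
    exact ⟨hop, hgap.2.2.2.1, hgap.2.2.2.2.1, rfl⟩
  obtain ⟨L, hL⟩ : ∃ L : Subgroup (MulAut G), L = M.Lsub Φ ha hb := ⟨_, rfl⟩
  rw [← hL] at hΦL hinv hpow hD hidx
  have hcomm : ∀ ℓ ∈ L, Φ * ℓ = ℓ * Φ := by
    intro ℓ hℓ
    rw [hL, M.mem_Lsub] at hℓ
    exact hℓ.2.2.2
  have hle : L.map cls ≤ Subgroup.centralizer {cls Φ} := by
    rintro _ ⟨ℓ, hℓ, rfl⟩
    rw [Subgroup.mem_centralizer_iff]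
    intro x hx
    rw [Set.mem_singleton_iff] at hx
    rw [hx, ← map_mul, ← map_mul, hcomm ℓ hℓ]
  -- the quasimorphism
  have hchoice : ∀ o : OutG G, ∃ t : ℝ, ∀ ℓ ∈ L, cls ℓ = o → q0 ℓ = t := by
    intro o
    by_cases h : ∃ ℓ ∈ L, cls ℓ = o
    · obtain ⟨ℓ, hℓ, rfl⟩ := h
      refine ⟨q0 ℓ, ?_⟩
      intro ℓ' hℓ' he
      obtain ⟨γ, hγ⟩ := (cls_eq_iff' ℓ ℓ').mp he.symm
      have hγL : MulAut.conj γ ∈ L := by
        have h1 : MulAut.conj γ = ℓ⁻¹ * ℓ' := by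
          rw [hγ]
          group
        rw [h1]
        exact L.mul_mem (L.inv_mem hℓ) hℓ'
      rw [hγ]
      exact hinv ℓ hℓ γ hγL
    · refine ⟨0, ?_⟩
      intro ℓ hℓ he
      exact absurd ⟨ℓ, hℓ, he⟩ h
  choose q hq using hchoice
  have hqc : ∀ ℓ ∈ L, q (cls ℓ) = q0 ℓ := fun ℓ hℓ => (hq (cls ℓ) ℓ hℓ rfl).symm
  refine ⟨L.map cls, q, hle, ?_, ⟨⟨D, ?_⟩, ?_⟩, Subgroup.mem_map_of_mem cls hΦL, ?_⟩
  · -- finite index
    have hcov : ∀ Ψ : MulAut G, M.OP Ψ → cls Ψ ∈ Subgroup.centralizer {cls Φ} →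
        ∃ t ∈ cls '' S, ∃ y ∈ L.map cls, cls Ψ = t * y := by
      intro Ψ hΨ hΨc
      obtain ⟨r, hr, γ, ℓ, hℓ, he⟩ := hidx Ψ hΨ (cen_conj hΨc)
      refine ⟨cls r, Set.mem_image_of_mem _ hr, cls ℓ, Subgroup.mem_map_of_mem cls hℓ, ?_⟩
      rw [he, map_mul, map_mul, cls_conj, one_mul]
    by_cases hex : ∃ Ψ0 : MulAut G, ¬M.OP Ψ0 ∧ cls Ψ0 ∈ Subgroup.centralizer {cls Φ}
    · obtain ⟨Ψ0, hΨ0, hΨ0c⟩ := hex
      refine relIndex_of_cover _ _ (cls '' S ∪ (fun x => cls Ψ0 * x) '' (cls '' S))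
        ((hS.image _).union ((hS.image _).image _)) hle ?_
      intro o ho
      obtain ⟨Ψ, rfl⟩ := cls_surj o
      by_cases hΨ : M.OP Ψ
      · obtain ⟨t, ht, y, hy, he⟩ := hcov Ψ hΨ ho
        exact ⟨t, Or.inl ht, y, hy, he⟩
      · have h0 : M.OR Ψ0⁻¹ := by
          rcases M.dich Ψ0⁻¹ with h | h
          · exfalso
            have := M.OP_inv h
            rw [inv_inv] at this
            exact hΨ0 this
          · exact h
        have h1 : M.OR Ψ := by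
          rcases M.dich Ψ with h | h
          · exact absurd h hΨ
          · exact h
        have h2 := M.OR_mul h0 h1
        have h3 : cls (Ψ0⁻¹ * Ψ) ∈ Subgroup.centralizer {cls Φ} := by
          rw [map_mul, map_inv]
          exact Subgroup.mul_mem _ (Subgroup.inv_mem _ hΨ0c) ho
        obtain ⟨t, ht, y, hy, he⟩ := hcov _ h2 h3
        refine ⟨cls Ψ0 * t, Or.inr ⟨t, ht, rfl⟩, y, hy, ?_⟩
        rw [mul_assoc, ← he, map_mul, map_inv]
        group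
    · refine relIndex_of_cover _ _ (cls '' S) (hS.image _) hle ?_
      intro o ho
      obtain ⟨Ψ, rfl⟩ := cls_surj o
      by_cases hΨ : M.OP Ψ
      · exact hcov Ψ hΨ ho
      · exact absurd ⟨Ψ, hΨ, ho⟩ hex
  · rintro _ ⟨x, hx, rfl⟩ _ ⟨y, hy, rfl⟩
    rw [← map_mul, hqc _ (L.mul_mem hx hy), hqc x hx, hqc y hy]
    exact hD x hx y hy
  · rintro _ ⟨x, hx, rfl⟩ n
    rw [← map_pow, hqc _ (L.pow_mem hx n), hqc x hx]
    exact hpow x hx n
  · rw [hqc Φ hΦL]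
    exact hq0

end Model

end Pool.Agent.Work.MP_d3656f_al
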